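import Mathlib
import Pool.Agent.Results.MP_d9eb96_ag.SL2Arcs

/-!
# Every hypersurface of every affine space is a locus of arcs with infinitely many lifts

Let `f ∈ k[y_1, ..., y_d]` be a nonconstant polynomial over an algebraically closed field of
characteristic `0`, and let `X_f` be the fibre product over `A^1` of `f : A^d → A^1` and
`det : [Mat_2 / SL_2] → A^1`, i.e. the quotient by `SL_2` of the affine variety of the pairs
`(y, M) ∈ A^d × Mat_2` with `det M = f(y)`. Its good moduli space is `A^d`, the map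
`π : X_f → A^d` is an isomorphism over the open set `f ≠ 0`, and the stabilizers are `1`, `G_a` and
`SL_2`, all special. We show that `sep_π ⁻¹ (0)` is the set of all the arcs of `A^d` with origin on
the hypersurface `f = 0`, a cylinder, and that it is not null.
-/

set_option autoImplicit false

open PowerSeries Pool.Agent.Results.MP_d9eb96_ag.SL2Arcs

namespace Pool.Agent.Results.MP_d9eb96_ag.Hypersurfaces

variable {k : Type} [Field k] {d : ℕ}

/-! ### Definitions -/

/-- The `R`-points of `X_f = A^d ×_{A^1} [Mat_2 / SL_2]` over `y ∈ A^d(R)`: the `R`-points of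
`[Mat_2 / SL_2]` whose determinant is `f(y)`. -/
noncomputable def Over (f : MvPolynomial (Fin d) k) {R : Type} [CommRing R] [Algebra k R] (y : Fin d → R) :
    Type 1 :=
  {X : Pt R // X.det = MvPolynomial.aeval y f}

/-- Being isomorphic over `y`. -/
noncomputable def overSetoid (f : MvPolynomial (Fin d) k) {R : Type} [CommRing R] [Algebra k R] (y : Fin d → R) :
    Setoid (Over f y) :=
  fibSetoid (MvPolynomial.aeval y f)

/-- The isomorphism classes of the `R`-points of `X_f` over `y`. -/
noncomputable def FibF (f : MvPolynomial (Fin d) k) {R : Type} [CommRing R] [Algebra k R] (y : Fin d → R) :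
    Type 1 :=
  Quotient (overSetoid f y)

/-- `sep_π (φ)` for an arc `φ ∈ F[[t]]^d` of `A^d` over an extension field `F` of `k`: the number of
the isomorphism classes of the arcs of `X_f` over `φ` if it is finite, and `0` otherwise. -/
noncomputable def sepF (f : MvPolynomial (Fin d) k) {F : Type} [Field F] [Algebra k F]
    (φ : Fin d → F⟦X⟧) : ℕ :=
  Nat.card (FibF f φ)

/-- `π` is an isomorphism over the open set where `f` is invertible. -/
def IsoWhereUnit (f : MvPolynomial (Fin d) k) : Prop :=
  ∀ (R : Type) [CommRing R] [Algebra k R] (y : Fin d → R), IsUnit (MvPolynomial.aeval y f) →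
    Nonempty (Over f y) ∧ ∀ X Y : Over f y, Nonempty (Unique (PtIso X.1 Y.1))

/-- The equation `det M = f(y)` in `A^d × Mat_2`. -/
noncomputable def eqn (f : MvPolynomial (Fin d) k) : MvPolynomial (Fin d ⊕ Fin 2 × Fin 2) k :=
  MvPolynomial.X (Sum.inr (0, 0)) * MvPolynomial.X (Sum.inr (1, 1)) -
    MvPolynomial.X (Sum.inr (0, 1)) * MvPolynomial.X (Sum.inr (1, 0)) -
    MvPolynomial.rename Sum.inl f

/-- The good moduli space of `X_f` is `A^d`: the ring of the `SL_2`-invariants of the coordinate
ring `k[y, M] / (det M - f(y))` is `k[y]`: each function on the variety `det M = f(y)` that is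
`SL_2`-invariant is, modulo the equation, a polynomial in `y`, exactly one. -/
def InvariantsAreAffine (f : MvPolynomial (Fin d) k) : Prop :=
  ∀ h : MvPolynomial (Fin d ⊕ Fin 2 × Fin 2) k,
    (∀ (g : Matrix.SpecialLinearGroup (Fin 2) k) (y : Fin d → k) (M : Matrix (Fin 2) (Fin 2) k),
      M.det = MvPolynomial.eval y f →
      MvPolynomial.eval (Sum.elim y fun ij => (g.1 * M) ij.1 ij.2) h =
        MvPolynomial.eval (Sum.elim y fun ij => M ij.1 ij.2) h) →
    ∃! q : MvPolynomial (Fin d) k, eqn f ∣ h - MvPolynomial.rename Sum.inl q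

/-- The arc space of `A^d` over `k` is the spectrum of the polynomial ring in the variables
`x_{i,j}`, `i < d`, `j ∈ ℕ`. This is the arc `(∑ x_{i,j} t^j)_i` over the residue field of the point
`P`. -/
noncomputable def arcOfF (P : PrimeSpectrum (MvPolynomial (Fin d × ℕ) k)) :
    Fin d → (P.asIdeal.ResidueField)⟦X⟧ := fun i =>
  PowerSeries.mk fun j => algebraMap (MvPolynomial (Fin d × ℕ) k) P.asIdeal.ResidueField
    (MvPolynomial.X (i, j))

/-- The set `sep_π ⁻¹ (0)` of points of the arc space of `A^d`. -/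
def sepZeroF (f : MvPolynomial (Fin d) k) : Set (PrimeSpectrum (MvPolynomial (Fin d × ℕ) k)) :=
  {P | sepF f (arcOfF P) = 0}

/-- The truncation map `θ_n` from the arc space of `A^d` to its space of `n`-jets. -/
noncomputable def truncF (n : ℕ) : PrimeSpectrum (MvPolynomial (Fin d × ℕ) k) →
    PrimeSpectrum (MvPolynomial (Fin d × Fin (n + 1)) k) :=
  PrimeSpectrum.comap
    (MvPolynomial.rename (Prod.map id Fin.val : Fin d × Fin (n + 1) → Fin d × ℕ)).toRingHom

/-- A set `A` of points of the arc space of `A^d` is null if for every `m` it is contained in a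
countable union of cylinders `θ_n ⁻¹ (B)`, with `B` a constructible set of codimension at least
`m` in the `n`-jet space. (A measurable set has the motivic measure `0` if and only if it is
null.) -/
def IsNullF (A : Set (PrimeSpectrum (MvPolynomial (Fin d × ℕ) k))) : Prop :=
  ∀ m : ℕ, ∃ (n : ℕ → ℕ)
    (B : (i : ℕ) → Set (PrimeSpectrum (MvPolynomial (Fin d × Fin (n i + 1)) k))),
    (∀ i, Topology.IsConstructible (B i)) ∧ (∀ i, ∀ P ∈ B i, (m : ℕ∞) ≤ P.asIdeal.height) ∧
      A ⊆ ⋃ i, truncF (n i) ⁻¹' (B i)

/-! ### The open part -/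

theorem isoWhereUnit (f : MvPolynomial (Fin d) k) : IsoWhereUnit f := by
  intro R _ _ y hy
  obtain ⟨u, hu⟩ := hy
  refine ⟨?_, fun X Y => exists_iso_of_unit u X.1 Y.1 (X.2.trans hu.symm) (Y.2.trans hu.symm)⟩
  obtain ⟨X, hX⟩ := exists_of_unit u
  exact ⟨⟨X, hX.trans hu⟩⟩

theorem sepF_eq (f : MvPolynomial (Fin d) k) {F : Type} [Field F] [Algebra k F]
    (φ : Fin d → F⟦X⟧) : sepF f φ = sep (MvPolynomial.aeval φ f) := rfl

/-! ### The invariants -/

section Invariants

theorem eval_eqn (f : MvPolynomial (Fin d) k) (y : Fin d → k) (M : Fin 2 × Fin 2 → k) :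
    MvPolynomial.eval (Sum.elim y M) (eqn f) =
      M (0, 0) * M (1, 1) - M (0, 1) * M (1, 0) - MvPolynomial.eval y f := by
  unfold eqn
  rw [map_sub, map_sub, map_mul, map_mul, MvPolynomial.eval_X, MvPolynomial.eval_X,
    MvPolynomial.eval_X, MvPolynomial.eval_X, MvPolynomial.eval_rename]
  rfl

theorem irreducible_eqn (f : MvPolynomial (Fin d) k) : Irreducible (eqn f) := by
  classical
  let e : MvPolynomial (Fin d ⊕ Fin 2 × Fin 2) k := MvPolynomial.X (Sum.inr (1, 1))
  let g : MvPolynomial (Fin d ⊕ Fin 2 × Fin 2) k :=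
    -(MvPolynomial.X (Sum.inr (0, 1)) * MvPolynomial.X (Sum.inr (1, 0)) +
      MvPolynomial.rename Sum.inl f)
  have h0 : eqn f = e * MvPolynomial.X (Sum.inr (0, 0)) + g := by
    simp only [eqn, e, g]
    ring
  rw [h0]
  apply MvPolynomial.irreducible_mul_X_add
  · exact MvPolynomial.X_ne_zero _
  · simp only [e, MvPolynomial.vars_X, Finset.mem_singleton, Sum.inr.injEq, Prod.mk.injEq]
    decide
  · intro h
    simp only [g, MvPolynomial.vars_neg] at h
    have h1 := MvPolynomial.vars_add_subset _ _ h
    rcases Finset.mem_union.1 h1 with h2 | h2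
    · have h3 := MvPolynomial.vars_mul _ _ h2
      rw [MvPolynomial.vars_X, MvPolynomial.vars_X] at h3
      rcases Finset.mem_union.1 h3 with h4 | h4
      · rw [Finset.mem_singleton, Sum.inr.injEq, Prod.mk.injEq] at h4
        exact absurd h4 (by decide)
      · rw [Finset.mem_singleton, Sum.inr.injEq, Prod.mk.injEq] at h4
        exact absurd h4 (by decide)
    · have h3 := MvPolynomial.vars_rename _ _ h2
      rw [Finset.mem_image] at h3
      obtain ⟨i, -, hi⟩ := h3
      exact absurd hi (by simp)
  · have he : Irreducible e := (MvPolynomial.X_prime).irreducible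
    rw [he.isRelPrime_iff_not_dvd]
    rintro ⟨s, hs⟩
    have h1 := congrArg (MvPolynomial.eval (Sum.elim (0 : Fin d → k)
      (fun ij : Fin 2 × Fin 2 => if ij = (0, 1) then 1 else if ij = (1, 0) then
        1 - MvPolynomial.eval 0 f else 0))) hs
    simp only [e, g, map_neg, map_add, map_mul, MvPolynomial.eval_X, MvPolynomial.eval_rename,
      Sum.elim_inr, Sum.elim_comp_inl] at h1
    simp at h1

theorem invariantsAreAffine [IsAlgClosed k] (f : MvPolynomial (Fin d) k) (hf : f ≠ 0) :
    InvariantsAreAffine f := by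
  classical
  have : Infinite k := IsAlgClosed.instInfinite
  intro h hh
  let q : MvPolynomial (Fin d) k := MvPolynomial.aeval
    (Sum.elim MvPolynomial.X fun ij : Fin 2 × Fin 2 =>
      (!![f, 0; 0, 1] : Matrix (Fin 2) (Fin 2) (MvPolynomial (Fin d) k)) ij.1 ij.2) h
  have hq : ∀ y : Fin d → k, MvPolynomial.eval y q = MvPolynomial.eval (Sum.elim y
      fun ij : Fin 2 × Fin 2 => (!![MvPolynomial.eval y f, 0; 0, 1] :
        Matrix (Fin 2) (Fin 2) k) ij.1 ij.2) h := by
    intro y
    have h1 : (MvPolynomial.eval y) q = MvPolynomial.eval₂ ((MvPolynomial.eval y).comp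
        (algebraMap k (MvPolynomial (Fin d) k))) (fun s => MvPolynomial.eval y
          ((Sum.elim MvPolynomial.X fun ij : Fin 2 × Fin 2 =>
            (!![f, 0; 0, 1] : Matrix (Fin 2) (Fin 2) (MvPolynomial (Fin d) k)) ij.1 ij.2) s)) h := by
      show (MvPolynomial.eval y) (MvPolynomial.aeval _ h) = _
      rw [MvPolynomial.aeval_def, MvPolynomial.hom_eval₂]
    rw [h1]
    have h2 : (fun s => MvPolynomial.eval y
          ((Sum.elim MvPolynomial.X fun ij : Fin 2 × Fin 2 =>
            (!![f, 0; 0, 1] : Matrix (Fin 2) (Fin 2) (MvPolynomial (Fin d) k)) ij.1 ij.2) s)) =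
        Sum.elim y fun ij : Fin 2 × Fin 2 => (!![MvPolynomial.eval y f, 0; 0, 1] :
          Matrix (Fin 2) (Fin 2) k) ij.1 ij.2 := by
      funext s
      rcases s with i | ⟨i, j⟩
      · simp
      · fin_cases i <;> fin_cases j <;> simp
    have h3 : (MvPolynomial.eval y).comp (algebraMap k (MvPolynomial (Fin d) k)) =
        RingHom.id k := RingHom.ext fun x => by simp
    rw [h2, h3]
    rfl
  have hrename : ∀ (p : MvPolynomial (Fin d) k) (y : Fin d → k) (M : Fin 2 × Fin 2 → k),
      MvPolynomial.eval (Sum.elim y M) (MvPolynomial.rename Sum.inl p) =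
        MvPolynomial.eval y p := by
    intro p y M
    rw [MvPolynomial.eval_rename, Sum.elim_comp_inl]
  have haev : ∀ (x : Fin d ⊕ Fin 2 × Fin 2 → k) (p : MvPolynomial (Fin d ⊕ Fin 2 × Fin 2) k),
      MvPolynomial.aeval x p = MvPolynomial.eval x p :=
    fun x p => RingHom.congr_fun (MvPolynomial.coe_aeval_eq_eval x) p
  have hprime : Prime (eqn f) := (irreducible_eqn f).prime
  have hprimeI : (Ideal.span {eqn f}).IsPrime := by
    rw [Ideal.span_singleton_prime hprime.ne_zero]
    exact hprime
  refine ⟨q, ?_, ?_⟩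
  · show eqn f ∣ h - MvPolynomial.rename Sum.inl q
    have key : eqn f ∣ MvPolynomial.rename Sum.inl f * (h - MvPolynomial.rename Sum.inl q) := by
      rw [← Ideal.mem_span_singleton, ← MvPolynomial.IsPrime.vanishingIdeal_zeroLocus (K := k)
        (Ideal.span {eqn f})]
      intro x hx
      have hx0 : MvPolynomial.eval x (eqn f) = 0 := by
        have := hx (eqn f) (Ideal.mem_span_singleton_self _)
        rwa [haev] at this
      rw [haev]
      obtain ⟨y, M, rfl⟩ : ∃ (y : Fin d → k) (M : Fin 2 × Fin 2 → k), x = Sum.elim y M :=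
        ⟨x ∘ Sum.inl, x ∘ Sum.inr, (Sum.elim_comp_inl_inr x).symm⟩
      rw [eval_eqn, sub_eq_zero] at hx0
      change MvPolynomial.eval (Sum.elim y M) (MvPolynomial.rename Sum.inl f *
        (h - MvPolynomial.rename Sum.inl q)) = 0
      rw [map_mul, map_sub, hrename, hrename]
      rcases eq_or_ne (MvPolynomial.eval y f) 0 with h0 | h0
      · rw [h0, zero_mul]
      · rw [hq y]
        set c := MvPolynomial.eval y f with hc
        let g : Matrix.SpecialLinearGroup (Fin 2) k :=
          ⟨!![M (0, 0) / c, M (0, 1); M (1, 0) / c, M (1, 1)], by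
            rw [Matrix.det_fin_two]
            simp
            field_simp
            rw [← hx0]⟩
        have h3 := hh g y !![c, 0; 0, 1] (by rw [Matrix.det_fin_two, ← hc]; simp)
        have h4 : M = fun ij : Fin 2 × Fin 2 =>
            ((g : Matrix (Fin 2) (Fin 2) k) * !![c, 0; 0, 1]) ij.1 ij.2 := by
          funext ij
          obtain ⟨i, j⟩ := ij
          fin_cases i <;> fin_cases j <;> simp [g, h0]
        have h5 : MvPolynomial.eval (Sum.elim y M) h = MvPolynomial.eval (Sum.elim y
            fun ij : Fin 2 × Fin 2 => (!![c, 0; 0, 1] : Matrix (Fin 2) (Fin 2) k) ij.1 ij.2) h := by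
          rw [← h3]
          exact congrArg (fun t => MvPolynomial.eval (Sum.elim y t) h) h4
        rw [h5, sub_self, mul_zero]
    rcases hprime.dvd_or_dvd key with h1 | h1
    · exfalso
      apply hf
      apply MvPolynomial.funext
      intro y
      obtain ⟨s, hs⟩ := h1
      have h2 := congrArg (MvPolynomial.eval (Sum.elim y fun ij : Fin 2 × Fin 2 =>
        (!![MvPolynomial.eval y f, 0; 0, 1] : Matrix (Fin 2) (Fin 2) k) ij.1 ij.2)) hs
      rw [map_mul, eval_eqn, hrename] at h2
      rw [h2]
      simp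
    · exact h1
  · intro q' hq'
    have h1 : eqn f ∣ h - MvPolynomial.rename Sum.inl q' := hq'
    apply MvPolynomial.funext
    intro y
    obtain ⟨s, hs⟩ := h1
    have h2 := congrArg (MvPolynomial.eval (Sum.elim y fun ij : Fin 2 × Fin 2 =>
      (!![MvPolynomial.eval y f, 0; 0, 1] : Matrix (Fin 2) (Fin 2) k) ij.1 ij.2)) hs
    rw [map_mul, eval_eqn, map_sub, hrename, ← hq y] at h2
    have h3 : MvPolynomial.eval y q - MvPolynomial.eval y q' = 0 := by
      rw [h2]
      simp
    exact (sub_eq_zero.1 h3).symm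

end Invariants

/-! ### The arc space -/

section Arcs

theorem constantCoeff_aeval (f : MvPolynomial (Fin d) k)
    (P : PrimeSpectrum (MvPolynomial (Fin d × ℕ) k)) :
    constantCoeff (MvPolynomial.aeval (arcOfF P) f) =
      algebraMap (MvPolynomial (Fin d × ℕ) k) P.asIdeal.ResidueField
        (MvPolynomial.rename (fun i => (i, 0)) f) := by
  have h : (constantCoeff (R := P.asIdeal.ResidueField)).comp
      (MvPolynomial.aeval (arcOfF P) : MvPolynomial (Fin d) k →ₐ[k] _).toRingHom =
      (algebraMap (MvPolynomial (Fin d × ℕ) k) P.asIdeal.ResidueField).comp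
        (MvPolynomial.rename (fun i : Fin d => ((i, 0) : Fin d × ℕ))).toRingHom := by
    apply MvPolynomial.ringHom_ext
    · intro c
      show constantCoeff (MvPolynomial.aeval (arcOfF P) (MvPolynomial.C c)) =
        algebraMap (MvPolynomial (Fin d × ℕ) k) P.asIdeal.ResidueField
          (MvPolynomial.rename _ (MvPolynomial.C c))
      rw [MvPolynomial.rename_C, MvPolynomial.aeval_C, PowerSeries.algebraMap_apply,
        PowerSeries.constantCoeff_C, ← MvPolynomial.algebraMap_eq,
        ← IsScalarTower.algebraMap_apply]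
    · intro i
      show constantCoeff (MvPolynomial.aeval (arcOfF P) (MvPolynomial.X i)) =
        algebraMap (MvPolynomial (Fin d × ℕ) k) P.asIdeal.ResidueField
          (MvPolynomial.rename _ (MvPolynomial.X i))
      rw [MvPolynomial.rename_X, MvPolynomial.aeval_X]
      unfold arcOfF
      rw [← PowerSeries.coeff_zero_eq_constantCoeff_apply, PowerSeries.coeff_mk]
  exact RingHom.congr_fun h f

theorem sepZeroF_eq [Infinite k] (f : MvPolynomial (Fin d) k) :
    sepZeroF f = PrimeSpectrum.zeroLocus {MvPolynomial.rename (fun i => (i, 0)) f} := by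
  ext P
  have : Infinite P.asIdeal.ResidueField :=
    Infinite.of_injective (algebraMap k P.asIdeal.ResidueField)
      (algebraMap k P.asIdeal.ResidueField).injective
  rw [PrimeSpectrum.mem_zeroLocus, Set.singleton_subset_iff, SetLike.mem_coe,
    ← Ideal.algebraMap_residueField_eq_zero (I := P.asIdeal), ← constantCoeff_aeval]
  constructor
  · intro h
    by_contra h0
    have h1 : sep (MvPolynomial.aeval (arcOfF P) f) = 0 := h
    rw [sep_unit _ h0] at h1
    exact one_ne_zero h1
  · intro h
    exact sep_zero _ h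

theorem prime_rename {p : MvPolynomial (Fin d) k} (hp : Prime p) :
    Prime (MvPolynomial.rename (fun i : Fin d => ((i, 0) : Fin d × ℕ)) p) := by
  have hinj : Function.Injective (fun i : Fin d => ((i, 0) : Fin d × ℕ)) :=
    fun i j h => congrArg Prod.fst h
  let e : Fin d ≃ Set.range (fun i : Fin d => ((i, 0) : Fin d × ℕ)) := Equiv.ofInjective _ hinj
  have h1 : MvPolynomial.rename (fun i : Fin d => ((i, 0) : Fin d × ℕ)) p =
      MvPolynomial.rename Subtype.val (MvPolynomial.rename e p) := by
    rw [MvPolynomial.rename_rename]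
    rfl
  rw [h1, MvPolynomial.prime_rename_iff]
  exact (MulEquiv.prime_iff (MvPolynomial.renameEquiv k e)).2 hp

theorem dvd_of_rename (n : ℕ) (p : MvPolynomial (Fin d) k)
    (g : MvPolynomial (Fin d × Fin (n + 1)) k)
    (h : MvPolynomial.rename (fun i : Fin d => ((i, 0) : Fin d × ℕ)) p ∣
      MvPolynomial.rename (Prod.map id Fin.val) g) :
    MvPolynomial.rename (fun i : Fin d => ((i, 0) : Fin d × Fin (n + 1))) p ∣ g := by
  obtain ⟨s, hs⟩ := h
  let ρ : MvPolynomial (Fin d × ℕ) k →ₐ[k] MvPolynomial (Fin d × Fin (n + 1)) k :=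
    MvPolynomial.aeval fun ij =>
      if h : ij.2 < n + 1 then MvPolynomial.X (ij.1, ⟨ij.2, h⟩) else 0
  have h1 : ρ (MvPolynomial.rename (Prod.map id Fin.val) g) = g := by
    rw [MvPolynomial.aeval_rename]
    have : ((fun ij : Fin d × ℕ => if h : ij.2 < n + 1 then (MvPolynomial.X (ij.1, ⟨ij.2, h⟩) :
        MvPolynomial (Fin d × Fin (n + 1)) k) else 0) ∘ (Prod.map id Fin.val)) =
        MvPolynomial.X := by
      funext ij
      have hi := ij.2.2
      simp only [Function.comp_apply, Prod.map_snd, Prod.map_fst, dif_pos hi, id_eq]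
    rw [this, MvPolynomial.aeval_X_left]
    rfl
  have h2 : ρ (MvPolynomial.rename (fun i : Fin d => ((i, 0) : Fin d × ℕ)) p) =
      MvPolynomial.rename (fun i : Fin d => ((i, 0) : Fin d × Fin (n + 1))) p := by
    rw [MvPolynomial.aeval_rename, MvPolynomial.rename_eq_aeval]
    congr 1
  refine ⟨ρ s, ?_⟩
  rw [← h1, hs, map_mul, h2]

theorem not_isNullF (f : MvPolynomial (Fin d) k) (hf0 : f ≠ 0) (hf : ¬ IsUnit f) :
    ¬ IsNullF (PrimeSpectrum.zeroLocus {MvPolynomial.rename (fun i => (i, 0)) f} :
      Set (PrimeSpectrum (MvPolynomial (Fin d × ℕ) k))) := by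
  intro h
  obtain ⟨n, B, -, h2, h3⟩ := h 2
  obtain ⟨p, hp, hpf⟩ := WfDvdMonoid.exists_irreducible_factor hf hf0
  have hpp := prime_rename hp.prime
  have hprime : (Ideal.span {MvPolynomial.rename (fun i : Fin d => ((i, 0) : Fin d × ℕ))
      p}).IsPrime := by
    rw [Ideal.span_singleton_prime hpp.ne_zero]
    exact hpp
  let η : PrimeSpectrum (MvPolynomial (Fin d × ℕ) k) := ⟨_, hprime⟩
  have hη : η ∈ (PrimeSpectrum.zeroLocus {MvPolynomial.rename (fun i => (i, 0)) f} :
      Set (PrimeSpectrum (MvPolynomial (Fin d × ℕ) k))) := by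
    rw [PrimeSpectrum.mem_zeroLocus, Set.singleton_subset_iff]
    exact Ideal.mem_span_singleton.2 (map_dvd _ hpf)
  obtain ⟨i, hi⟩ := Set.mem_iUnion.1 (h3 hη)
  have h4 := h2 i _ hi
  have h5 : (truncF (n i) η).asIdeal =
      Ideal.span {MvPolynomial.rename (fun j : Fin d => ((j, 0) : Fin d × Fin (n i + 1))) p} := by
    ext g
    rw [Ideal.mem_span_singleton]
    constructor
    · intro hg
      apply dvd_of_rename
      rw [← Ideal.mem_span_singleton]
      exact hg
    · rintro ⟨s, rfl⟩
      show MvPolynomial.rename (Prod.map id Fin.val) (MvPolynomial.rename _ p * s) ∈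
        Ideal.span {MvPolynomial.rename (fun i : Fin d => ((i, 0) : Fin d × ℕ)) p}
      rw [map_mul, MvPolynomial.rename_rename]
      exact Ideal.mul_mem_right _ _ (Ideal.subset_span rfl)
  have h6 : (truncF (n i) η).asIdeal.height ≤ 1 := by
    rw [h5]
    apply Ideal.height_le_one_of_isPrincipal_of_mem_minimalPrimes
      (Ideal.span {MvPolynomial.rename (fun j : Fin d => ((j, 0) : Fin d × Fin (n i + 1))) p})
    have : (Ideal.span {MvPolynomial.rename
        (fun j : Fin d => ((j, 0) : Fin d × Fin (n i + 1))) p}).IsPrime := by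
      rw [← h5]
      exact (truncF (n i) η).isPrime
    rw [Ideal.minimalPrimes_eq_subsingleton_self]
    rfl
  have h7 := h4.trans h6
  exact absurd h7 (by decide)

/-- `sep_π ⁻¹ (0)` is a cylinder over a closed subset of the space of `0`-jets. -/
theorem cylinder (f : MvPolynomial (Fin d) k) :
    (PrimeSpectrum.zeroLocus {MvPolynomial.rename (fun i => (i, 0)) f} :
      Set (PrimeSpectrum (MvPolynomial (Fin d × ℕ) k))) =
    truncF 0 ⁻¹' PrimeSpectrum.zeroLocus {MvPolynomial.rename (fun i => (i, 0)) f} := by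
  ext P
  rw [Set.mem_preimage, PrimeSpectrum.mem_zeroLocus, PrimeSpectrum.mem_zeroLocus,
    Set.singleton_subset_iff, Set.singleton_subset_iff]
  show _ ↔ MvPolynomial.rename (Prod.map id Fin.val) (MvPolynomial.rename _ f) ∈ P.asIdeal
  rw [MvPolynomial.rename_rename]
  rfl

end Arcs

/-- **Result.** Let `k` be an algebraically closed field of characteristic `0` and let
`f ∈ k[y_1, ..., y_d]` be any nonconstant polynomial. The stack `X_f = A^d ×_{A^1} [Mat_2 / SL_2]`
has the good moduli space `A^d`, is isomorphic to it over `f ≠ 0`, and has special stabilizers.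
Every arc of `A^d` (over any extension field of `k`) with origin outside of the hypersurface
`f = 0` has exactly one lift to `X_f`, and every arc with origin on `f = 0` has infinitely many, so
that `sep ⁻¹ (0)` is the cylinder of all the arcs with origin on `f = 0`; it is not null. -/
theorem result (k : Type) [Field k] [IsAlgClosed k] [CharZero k] (d : ℕ)
    (f : MvPolynomial (Fin d) k) (hf0 : f ≠ 0) (hf : ¬ IsUnit f) :
    (InvariantsAreAffine f ∧ IsoWhereUnit f ∧ LocalDescription ∧ StabilizersSpecial) ∧
    (∀ (F : Type) [Field F] [Algebra k F] (φ : Fin d → F⟦X⟧),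
      (constantCoeff (MvPolynomial.aeval φ f) ≠ 0 → sepF f φ = 1) ∧
      (constantCoeff (MvPolynomial.aeval φ f) = 0 → Infinite (FibF f φ) ∧ sepF f φ = 0)) ∧
    sepZeroF f = truncF 0 ⁻¹' PrimeSpectrum.zeroLocus {MvPolynomial.rename (fun i => (i, 0)) f} ∧
    ¬ IsNullF (sepZeroF f) := by
  have : Infinite k := IsAlgClosed.instInfinite
  refine ⟨⟨invariantsAreAffine f hf0, isoWhereUnit f, localDescription, stabilizersSpecial⟩,
    fun F _ _ φ => ?_, ?_, ?_⟩
  · have : Infinite F := Infinite.of_injective (algebraMap k F) (algebraMap k F).injective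
    exact ⟨sep_unit _, fun h => ⟨fib_infinite _ h, sep_zero _ h⟩⟩
  · rw [sepZeroF_eq, cylinder]
  · rw [sepZeroF_eq]
    exact not_isNullF f hf0 hf

end Pool.Agent.Results.MP_d9eb96_ag.Hypersurfaces
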